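import Mathlib

/-!
# Counting subsets
-/

namespace Pool.Agent.J4H45.SB

open Finset

variable {α : Type} [DecidableEq α]

/-- the number of the subsets with `s` elements which contain `τ` and avoid `G` -/
theorem card_between {S τ G : Finset α} (hτ : τ ⊆ S) (hG : G ⊆ S) (hd : Disjoint G τ) {s : ℕ}
    (hs : τ.card ≤ s) :
    ((S.powersetCard s).filter (fun T => τ ⊆ T ∧ Disjoint G T)).card =
      (S.card - τ.card - G.card).choose (s - τ.card) := by
  have h1 : (S.card - τ.card - G.card) = ((S \ τ) \ G).card := by
    rw [card_sdiff_of_subset, card_sdiff_of_subset hτ]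
    intro x hx
    rw [mem_sdiff]
    exact ⟨hG hx, disjoint_left.1 hd hx⟩
  rw [h1, ← card_powersetCard]
  refine card_bij (fun T _ => T \ τ) (fun T hT => ?_) (fun T hT T' hT' h => ?_) (fun U hU => ?_)
  · rw [mem_filter, mem_powersetCard] at hT
    rw [mem_powersetCard]
    refine ⟨?_, ?_⟩
    · intro x hx
      rw [mem_sdiff] at hx
      rw [mem_sdiff, mem_sdiff]
      exact ⟨⟨hT.1.1 hx.1, hx.2⟩, fun hxG => disjoint_left.1 hT.2.2 hxG hx.1⟩
    · rw [card_sdiff_of_subset hT.2.1, hT.1.2]
  · rw [mem_filter] at hT hT'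
    rw [← sdiff_union_of_subset hT.2.1, ← sdiff_union_of_subset hT'.2.1, h]
  · rw [mem_powersetCard] at hU
    have hUτ : Disjoint U τ := by
      rw [disjoint_left]
      intro x hx hxτ
      have := hU.1 hx
      rw [mem_sdiff, mem_sdiff] at this
      exact this.1.2 hxτ
    refine ⟨U ∪ τ, ?_, ?_⟩
    · rw [mem_filter, mem_powersetCard]
      refine ⟨⟨?_, ?_⟩, subset_union_right, ?_⟩
      · refine union_subset ?_ hτ
        intro x hx
        have := hU.1 hx
        rw [mem_sdiff, mem_sdiff] at this
        exact this.1.1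
      · rw [card_union_of_disjoint hUτ, hU.2]
        omega
      · rw [disjoint_left]
        intro x hxG hx
        rcases mem_union.1 hx with hx | hx
        · have := hU.1 hx
          rw [mem_sdiff] at this
          exact this.2 hxG
        · exact disjoint_left.1 hd hxG hx
    · rw [union_sdiff_right, sdiff_eq_self_of_disjoint hUτ]

theorem card_super {S τ : Finset α} (hτ : τ ⊆ S) {s : ℕ} (hs : τ.card ≤ s) :
    ((S.powersetCard s).filter (fun T => τ ⊆ T)).card =
      (S.card - τ.card).choose (s - τ.card) := by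
  have h := card_between hτ (empty_subset S) (disjoint_empty_left τ) hs
  simpa using h

/-- avoiding a set -/
theorem choose_avoid (M N t : ℕ) (hM : M ≤ N) : M.choose t * N ^ t ≤ N.choose t * M ^ t := by
  induction t with
  | zero => simp
  | succ t ih =>
    have h1 : M.choose (t + 1) * (t + 1) = M.choose t * (M - t) := Nat.choose_succ_right_eq M t
    have h2 : N.choose (t + 1) * (t + 1) = N.choose t * (N - t) := Nat.choose_succ_right_eq N t
    have h3 : (M - t) * N ≤ M * (N - t) := by
      rcases le_total M t with h | h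
      · rw [Nat.sub_eq_zero_of_le h]; simp
      · obtain ⟨a, rfl⟩ := Nat.exists_eq_add_of_le h
        obtain ⟨b, rfl⟩ := Nat.exists_eq_add_of_le hM
        have e1 : t + a - t = a := by omega
        have e2 : t + a + b - t = a + b := by omega
        rw [e1, e2]
        nlinarith
    refine Nat.le_of_mul_le_mul_right ?_ (Nat.succ_pos t)
    calc M.choose (t + 1) * N ^ (t + 1) * (t + 1)
        = M.choose (t + 1) * (t + 1) * N ^ (t + 1) := by ring
      _ = (M.choose t * N ^ t) * ((M - t) * N) := by rw [h1]; ring
      _ ≤ (N.choose t * M ^ t) * (M * (N - t)) := Nat.mul_le_mul ih h3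
      _ = N.choose (t + 1) * (t + 1) * M ^ (t + 1) := by rw [h2]; ring
      _ = N.choose (t + 1) * M ^ (t + 1) * (t + 1) := by ring

/-- one step down -/
theorem choose_down {n s : ℕ} : (n + 1) * n.choose s = (n + 1).choose (s + 1) * (s + 1) :=
  Nat.add_one_mul_choose_eq n s

/-- three steps down -/
theorem choose_down3 (n s : ℕ) : (n + 3) * (n + 2) * (n + 1) * n.choose s =
    (n + 3).choose (s + 3) * ((s + 3) * (s + 2) * (s + 1)) := by
  have h1 := choose_down (n := n) (s := s)
  have h2 := choose_down (n := n + 1) (s := s + 1)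
  have h3 := choose_down (n := n + 2) (s := s + 2)
  calc (n + 3) * (n + 2) * (n + 1) * n.choose s
      = (n + 3) * (n + 2) * ((n + 1) * n.choose s) := by ring
    _ = (n + 3) * ((n + 2) * (n + 1).choose (s + 1)) * (s + 1) := by rw [h1]; ring
    _ = ((n + 3) * (n + 2).choose (s + 2)) * (s + 2) * (s + 1) := by
        rw [show n + 2 = n + 1 + 1 by ring, h2]; ring
    _ = _ := by rw [show n + 3 = n + 2 + 1 by ring, h3]; ring

end Pool.Agent.J4H45.SB
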