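import Mathlib

/-!
# Sample-based testing of convexity of planar point sets
-/

namespace Pool.Agent.J4H45.SB

/-- a point of the plane -/
abbrev Pt : Type := ℝ × ℝ

/-- no three points of the configuration are collinear -/
def GenPos (S : Finset Pt) : Prop :=
  ∀ a ∈ S, ∀ b ∈ S, ∀ c ∈ S, a ≠ b → a ≠ c → b ≠ c → ¬ Collinear ℝ ({a, b, c} : Set Pt)

/-- The configuration is convex: every point of it is a vertex of its convex hull, that is, no
point of it is in the convex hull of the other points. -/
def Cvx (S : Finset Pt) : Prop := ∀ x ∈ S, x ∉ convexHull ℝ ((S : Set Pt) \ {x})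

/-- `S` is `ε`-far from convex. -/
def Far (ε : ℝ) (S : Finset Pt) : Prop := ∀ T ⊆ S, Cvx T → (T.card : ℝ) ≤ (1 - ε) * S.card

open Classical in
/-- The probability that the tester with sample size `s` accepts `S`: the proportion of the convex
sets among the subsets of `S` with `s` elements. -/
noncomputable def acc (S : Finset Pt) (s : ℕ) : ℝ :=
  (((S.powersetCard s).filter Cvx).card : ℝ) / ((S.powersetCard s).card : ℝ)

/-- The least sample size with which the tester accepts every configuration of `n` points in
general position which is `ε`-far from convex with probability at most `p`. -/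
noncomputable def sp (ε p : ℝ) (n : ℕ) : ℕ :=
  sInf {s : ℕ | s ≤ n ∧ ∀ S : Finset Pt, S.card = n → GenPos S → Far ε S → acc S s ≤ p}

end Pool.Agent.J4H45.SB
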