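import Pool.Agent.J4H45.SB.Defs

/-!
# Witnesses of non-convexity
-/

namespace Pool.Agent.J4H45.SB

open Finset

/-- barycentric coordinates of an arbitrary point -/
theorem exists_bary {a b c : Pt} (h : ¬ Collinear ℝ ({a, b, c} : Set Pt)) (x : Pt) :
    ∃ l m n : ℝ, l + m + n = 1 ∧ x = l • a + m • b + n • c := by
  have h1 : AffineIndependent ℝ ![a, b, c] := affineIndependent_iff_not_collinear_set.2 h
  have h2 : affineSpan ℝ (Set.range ![a, b, c]) = ⊤ := by
    rw [h1.affineSpan_eq_top_iff_card_eq_finrank_add_one]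
    simp
  have h3 : x ∈ affineSpan ℝ (Set.range ![a, b, c]) := by rw [h2]; trivial
  obtain ⟨w, hw1, hw2⟩ := eq_affineCombination_of_mem_affineSpan_of_fintype h3
  rw [Finset.affineCombination_eq_linear_combination _ _ _ hw1] at hw2
  rw [Fin.sum_univ_three] at hw1 hw2
  exact ⟨w 0, w 1, w 2, hw1, by simpa using hw2⟩

theorem mem_hull3 {a b c d : Pt} : d ∈ convexHull ℝ ({a, b, c} : Set Pt) ↔
    ∃ l m n : ℝ, 0 ≤ l ∧ 0 ≤ m ∧ 0 ≤ n ∧ l + m + n = 1 ∧ l • a + m • b + n • c = d := by
  rw [convexHull_insert (Set.insert_nonempty _ _), mem_convexJoin]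
  simp only [Set.mem_singleton_iff, convexHull_pair, exists_eq_left]
  constructor
  · rintro ⟨y, hy, hd⟩
    obtain ⟨s, t, hs, ht, hst, rfl⟩ := hy
    obtain ⟨u, v, hu, hv, huv, rfl⟩ := hd
    refine ⟨u, v * s, v * t, hu, by positivity, by positivity, ?_, ?_⟩
    · linear_combination huv + v * hst
    · rw [smul_add, smul_smul, smul_smul, add_assoc]
  · rintro ⟨l, m, n, hl, hm, hn, hs, rfl⟩
    rcases eq_or_lt_of_le (add_nonneg hm hn) with h | h
    · have hm0 : m = 0 := by linarith
      have hn0 : n = 0 := by linarith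
      have hl1 : l = 1 := by linarith
      refine ⟨b, left_mem_segment ℝ b c, ?_⟩
      rw [hm0, hn0, hl1, one_smul, zero_smul, zero_smul, add_zero, add_zero]
      exact left_mem_segment ℝ a b
    · refine ⟨(m / (m + n)) • b + (n / (m + n)) • c, ⟨m / (m + n), n / (m + n), by positivity,
        by positivity, by field_simp, rfl⟩, ⟨l, m + n, hl, h.le, by linarith, ?_⟩⟩
      rw [smul_add, smul_smul, smul_smul, add_assoc]
      congr 2
      · congr 1; field_simp
      · congr 1; field_simp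

/-- every further point gives a witness with two of the three points -/
theorem very_colorful {a b c d : Pt} (h : ¬ Collinear ℝ ({a, b, c} : Set Pt))
    (hd : d ∈ convexHull ℝ ({a, b, c} : Set Pt)) (x : Pt) :
    d ∈ convexHull ℝ ({x, b, c} : Set Pt) ∨ d ∈ convexHull ℝ ({x, a, c} : Set Pt) ∨
      d ∈ convexHull ℝ ({x, a, b} : Set Pt) := by
  obtain ⟨l, m, n, hs, hx⟩ := exists_bary h x
  obtain ⟨α, β, γ, hα, hβ, hγ, hs', hd'⟩ := mem_hull3.1 hd
  -- the least ratio
  have key : ∀ t : ℝ, 0 ≤ t → 0 ≤ α - t * l → 0 ≤ β - t * m → 0 ≤ γ - t * n →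
      (α - t * l = 0 ∨ β - t * m = 0 ∨ γ - t * n = 0) →
      d ∈ convexHull ℝ ({x, b, c} : Set Pt) ∨ d ∈ convexHull ℝ ({x, a, c} : Set Pt) ∨
      d ∈ convexHull ℝ ({x, a, b} : Set Pt) := by
    intro t ht h1 h2 h3 h4
    have e : d = t • x + (α - t * l) • a + (β - t * m) • b + (γ - t * n) • c := by
      rw [← hd', hx]
      simp only [smul_add, smul_smul, sub_smul]
      abel
    have es : t + (α - t * l) + (β - t * m) + (γ - t * n) = 1 := by
      linear_combination hs' - t * hs
    rcases h4 with h4 | h4 | h4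
    · left
      rw [h4, zero_smul, add_zero] at e
      exact mem_hull3.2 ⟨t, _, _, ht, h2, h3, by linarith, e.symm⟩
    · right; left
      rw [h4, zero_smul, add_zero] at e
      exact mem_hull3.2 ⟨t, _, _, ht, h1, h3, by linarith, e.symm⟩
    · right; right
      rw [h4, zero_smul, add_zero] at e
      exact mem_hull3.2 ⟨t, _, _, ht, h1, h2, by linarith, e.symm⟩
  -- choose the ratio
  let R : Fin 3 → ℝ × ℝ := ![(α, l), (β, m), (γ, n)]
  have hR0 : ∀ i, 0 ≤ (R i).1 := by
    intro i; fin_cases i <;> simp [R, hα, hβ, hγ]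
  have hpos : ∃ i, 0 < (R i).2 := by
    by_contra hcon
    push Not at hcon
    have h0 := hcon 0
    have h1 := hcon 1
    have h2 := hcon 2
    change l ≤ 0 at h0
    change m ≤ 0 at h1
    change n ≤ 0 at h2
    linarith
  obtain ⟨i, hi, hmin⟩ := Finset.exists_min_image (univ.filter (fun i => 0 < (R i).2))
    (fun i => (R i).1 / (R i).2) (by
      obtain ⟨i, hi⟩ := hpos
      exact ⟨i, by simpa using hi⟩)
  rw [mem_filter] at hi
  have ht : 0 ≤ (R i).1 / (R i).2 := div_nonneg (hR0 i) hi.2.le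
  have hall : ∀ j, 0 ≤ (R j).1 - (R i).1 / (R i).2 * (R j).2 := by
    intro j
    rcases lt_or_ge 0 (R j).2 with hj | hj
    · have := hmin j (by simpa using hj)
      rw [le_div_iff₀ hj] at this
      linarith
    · have h1 := hR0 j
      have h2 : (R i).1 / (R i).2 * (R j).2 ≤ 0 := mul_nonpos_of_nonneg_of_nonpos ht hj
      linarith
  have heq : (R i).1 - (R i).1 / (R i).2 * (R i).2 = 0 := by
    have := hi.2.ne'
    field_simp
    ring
  have e0 := hall 0
  have e1 := hall 1
  have e2 := hall 2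
  refine key ((R i).1 / (R i).2) ht e0 e1 e2 ?_
  fin_cases i
  · exact Or.inl heq
  · exact Or.inr (Or.inl heq)
  · exact Or.inr (Or.inr heq)

/-- a point in the hull of other points of the set -/
theorem not_cvx_of_mem {T : Finset Pt} {x u v d : Pt} (hd : d ∈ T) (hx : x ∈ T) (hu : u ∈ T)
    (hv : v ∈ T) (hxd : x ≠ d) (hud : u ≠ d) (hvd : v ≠ d)
    (h : d ∈ convexHull ℝ ({x, u, v} : Set Pt)) : ¬ Cvx T := by
  intro hT
  refine hT d hd (convexHull_mono ?_ h)
  intro y hy
  simp only [Set.mem_insert_iff, Set.mem_singleton_iff] at hy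
  rcases hy with rfl | rfl | rfl
  · exact ⟨hx, hxd⟩
  · exact ⟨hu, hud⟩
  · exact ⟨hv, hvd⟩

/-- a non-convex configuration in general position contains a point in a triangle -/
theorem exists_quad {S T : Finset Pt} (hS : GenPos S) (hTS : T ⊆ S) (hT : ¬ Cvx T) :
    ∃ a ∈ T, ∃ b ∈ T, ∃ c ∈ T, ∃ d ∈ T, a ≠ b ∧ a ≠ c ∧ b ≠ c ∧ a ≠ d ∧ b ≠ d ∧ c ≠ d ∧
      d ∈ convexHull ℝ ({a, b, c} : Set Pt) := by
  unfold Cvx at hT
  push Not at hT
  obtain ⟨d, hd, hdT⟩ := hT
  rw [convexHull_eq_union] at hdT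
  simp only [Set.mem_iUnion, exists_prop] at hdT
  obtain ⟨t, ht, hai, hdt⟩ := hdT
  have hcard : t.card ≤ 3 := by
    have h1 := hai.card_le_finrank_succ.trans (Nat.succ_le_succ (Submodule.finrank_le _))
    have h3 : Module.finrank ℝ Pt = 2 := by simp
    rw [Fintype.card_coe, h3] at h1
    exact h1
  have hmem : ∀ y ∈ t, y ∈ T ∧ y ≠ d := fun y hy => ⟨(ht hy).1, (ht hy).2⟩
  interval_cases hc : t.card
  · rw [card_eq_zero] at hc
    subst hc
    simp at hdt
  · rw [card_eq_one] at hc
    obtain ⟨a, rfl⟩ := hc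
    simp only [coe_singleton, convexHull_singleton, Set.mem_singleton_iff] at hdt
    exact absurd hdt.symm (hmem a (by simp)).2
  · rw [card_eq_two] at hc
    obtain ⟨a, b, hab, rfl⟩ := hc
    have ha := hmem a (by simp)
    have hb := hmem b (by simp)
    rw [coe_insert, coe_singleton, convexHull_pair] at hdt
    exfalso
    refine hS a (hTS ha.1) b (hTS hb.1) d (hTS hd) hab ha.2 hb.2 ?_
    have h1 : d ∈ line[ℝ, a, b] := (mem_segment_iff_wbtw.1 hdt).mem_affineSpan
    have h2 := collinear_insert_of_mem_affineSpan_pair h1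
    have e : ({a, b, d} : Set Pt) = {d, a, b} := by
      ext y; simp only [Set.mem_insert_iff, Set.mem_singleton_iff]; tauto
    rw [e]
    exact h2
  · rw [card_eq_three] at hc
    obtain ⟨a, b, c, hab, hac, hbc, rfl⟩ := hc
    have ha := hmem a (by simp)
    have hb := hmem b (by simp)
    have hc := hmem c (by simp)
    refine ⟨a, ha.1, b, hb.1, c, hc.1, d, hd, hab, hac, hbc, ha.2, hb.2, hc.2, ?_⟩
    simpa using hdt

/-- a triple together with many completions to a witness -/
def Trip (S τ : Finset Pt) : Prop := τ ⊆ S ∧ τ.card = 3 ∧ ∃ G ⊆ S, Disjoint G τ ∧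
  S.card ≤ 3 * G.card + 4 ∧ ∀ T : Finset Pt, τ ⊆ T → ∀ x ∈ G, x ∈ T → ¬ Cvx T

theorem trip_of {S Q : Finset Pt} {G : Finset Pt} {u v d : Pt} (hG : G ⊆ S)
    (hQ : Disjoint G Q) (hu : u ∈ Q) (hv : v ∈ Q) (hd : d ∈ Q) (hQS : Q ⊆ S) (huv : u ≠ v)
    (hud : u ≠ d) (hvd : v ≠ d) (hcard : S.card ≤ 3 * G.card + 4)
    (h : ∀ x ∈ G, d ∈ convexHull ℝ ({x, u, v} : Set Pt)) :
    Trip S {u, v, d} := by
  refine ⟨?_, ?_, G, hG, ?_, hcard, fun T hT x hx hxT => ?_⟩
  · intro y hy
    simp only [mem_insert, mem_singleton] at hy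
    rcases hy with rfl | rfl | rfl
    · exact hQS hu
    · exact hQS hv
    · exact hQS hd
  · rw [card_eq_three]; exact ⟨u, v, d, huv, hud, hvd, rfl⟩
  · refine disjoint_of_subset_right ?_ hQ
    intro y hy
    simp only [mem_insert, mem_singleton] at hy
    rcases hy with rfl | rfl | rfl <;> assumption
  · have hxd : x ≠ d := by
      rintro rfl
      exact disjoint_left.1 hQ hx hd
    exact not_cvx_of_mem (hT (by simp)) hxT (hT (by simp)) (hT (by simp)) hxd hud hvd (h x hx)

/-- every witness contains a good triple -/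
theorem exists_trip {S : Finset Pt} (hS : GenPos S) {a b c d : Pt} (ha : a ∈ S) (hb : b ∈ S)
    (hc : c ∈ S) (hd : d ∈ S) (hab : a ≠ b) (hac : a ≠ c) (hbc : b ≠ c) (had : a ≠ d)
    (hbd : b ≠ d) (hcd : c ≠ d) (h : d ∈ convexHull ℝ ({a, b, c} : Set Pt)) :
    ∃ τ : Finset Pt, τ ⊆ {a, b, c, d} ∧ Trip S τ := by
  classical
  have hcol := hS a ha b hb c hc hab hac hbc
  have hQS : ({a, b, c, d} : Finset Pt) ⊆ S := by
    intro y hy
    simp only [mem_insert, mem_singleton] at hy
    rcases hy with rfl | rfl | rfl | rfl <;> assumption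
  have hQ4 : ({a, b, c, d} : Finset Pt).card ≤ 4 := card_le_four
  set Q : Finset Pt := {a, b, c, d} with hQ
  let G1 := (S \ Q).filter (fun x => d ∈ convexHull ℝ ({x, b, c} : Set Pt))
  let G2 := (S \ Q).filter (fun x => d ∈ convexHull ℝ ({x, a, c} : Set Pt))
  let G3 := (S \ Q).filter (fun x => d ∈ convexHull ℝ ({x, a, b} : Set Pt))
  have hcov : S \ Q ⊆ G1 ∪ G2 ∪ G3 := by
    intro x hx
    rcases very_colorful hcol h x with h1 | h1 | h1
    · exact mem_union_left _ (mem_union_left _ (mem_filter.2 ⟨hx, h1⟩))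
    · exact mem_union_left _ (mem_union_right _ (mem_filter.2 ⟨hx, h1⟩))
    · exact mem_union_right _ (mem_filter.2 ⟨hx, h1⟩)
  have h1 := card_le_card hcov
  have h2 := card_union_le (G1 ∪ G2) G3
  have h3 := card_union_le G1 G2
  have h4 : S.card ≤ (S \ Q).card + 4 := by
    have := card_sdiff_add_card_inter S Q
    have h5 : (S ∩ Q).card ≤ Q.card := card_le_card inter_subset_right
    omega
  have hsub : ∀ G : Finset Pt, G ⊆ S \ Q → G ⊆ S ∧ Disjoint G Q := fun G hG =>
    ⟨hG.trans sdiff_subset, disjoint_of_subset_left hG sdiff_disjoint⟩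
  have hdj : S.card ≤ 3 * G1.card + 4 ∨ S.card ≤ 3 * G2.card + 4 ∨ S.card ≤ 3 * G3.card + 4 := by
    omega
  rcases hdj with h5 | h5 | h5
  · obtain ⟨g1, g2⟩ := hsub G1 (filter_subset _ _)
    refine ⟨{b, c, d}, ?_, trip_of g1 g2 (by simp [hQ]) (by simp [hQ]) (by simp [hQ]) hQS hbc hbd
      hcd h5 fun x hx => (mem_filter.1 hx).2⟩
    intro y hy
    simp only [hQ, mem_insert, mem_singleton] at hy ⊢
    tauto
  · obtain ⟨g1, g2⟩ := hsub G2 (filter_subset _ _)
    refine ⟨{a, c, d}, ?_, trip_of g1 g2 (by simp [hQ]) (by simp [hQ]) (by simp [hQ]) hQS hac had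
      hcd h5 fun x hx => (mem_filter.1 hx).2⟩
    intro y hy
    simp only [hQ, mem_insert, mem_singleton] at hy ⊢
    tauto
  · obtain ⟨g1, g2⟩ := hsub G3 (filter_subset _ _)
    refine ⟨{a, b, d}, ?_, trip_of g1 g2 (by simp [hQ]) (by simp [hQ]) (by simp [hQ]) hQS hab had
      hbd h5 fun x hx => (mem_filter.1 hx).2⟩
    intro y hy
    simp only [hQ, mem_insert, mem_singleton] at hy ⊢
    tauto

/-- many disjoint good triples in a configuration far from convex -/
theorem exists_trips {S : Finset Pt} (hS : GenPos S) {ε : ℝ} (hfar : Far ε S) :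
    ∀ k : ℕ, 4 * (k : ℝ) < ε * S.card + 4 → ∃ F : Finset (Finset Pt), F.card = k ∧
      (∀ τ ∈ F, Trip S τ) ∧ (∀ τ ∈ F, ∀ τ' ∈ F, τ ≠ τ' → Disjoint τ τ') ∧
      ∃ U ⊆ S, U.card ≤ 4 * k ∧ ∀ τ ∈ F, τ ⊆ U := by
  classical
  intro k
  induction k with
  | zero => intro _; exact ⟨∅, by simp, by simp, by simp, ∅, by simp, by simp, by simp⟩
  | succ k ih =>
    intro hk
    push_cast at hk
    obtain ⟨F, h1, h2, h3, U, hU, hUc, hFU⟩ := ih (by linarith)
    have hnc : ¬ Cvx (S \ U) := by
      intro hcv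
      have h4 := hfar (S \ U) sdiff_subset hcv
      have h5 : (S \ U).card + U.card = S.card := card_sdiff_add_card_eq_card hU
      have h6 : ((S \ U).card : ℝ) + U.card = S.card := by exact_mod_cast h5
      have h7 : (U.card : ℝ) ≤ 4 * k := by exact_mod_cast hUc
      nlinarith
    obtain ⟨a, ha, b, hb, c, hc, d, hd, hab, hac, hbc, had, hbd, hcd, hh⟩ :=
      exists_quad hS sdiff_subset hnc
    rw [mem_sdiff] at ha hb hc hd
    obtain ⟨τ, hτ, hτ2⟩ := exists_trip hS ha.1 hb.1 hc.1 hd.1 hab hac hbc had hbd hcd hh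
    have hdisj : Disjoint τ U := by
      refine disjoint_of_subset_left hτ ?_
      rw [disjoint_left]
      intro y hy
      simp only [mem_insert, mem_singleton] at hy
      rcases hy with rfl | rfl | rfl | rfl
      · exact ha.2
      · exact hb.2
      · exact hc.2
      · exact hd.2
    have hτF : τ ∉ F := by
      intro hmem
      have h4 := hFU τ hmem
      have h5 : τ = ∅ := by
        rw [← disjoint_self_iff_empty]
        exact disjoint_of_subset_right h4 hdisj
      have := hτ2.2.1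
      rw [h5] at this
      simp at this
    refine ⟨insert τ F, by rw [card_insert_of_notMem hτF, h1], ?_, ?_, U ∪ {a, b, c, d}, ?_, ?_, ?_⟩
    · intro τ' hτ'
      rcases mem_insert.1 hτ' with rfl | h
      · exact hτ2
      · exact h2 τ' h
    · intro τ1 hτ1 τ2 hτ2' hne
      rcases mem_insert.1 hτ1 with rfl | g1 <;> rcases mem_insert.1 hτ2' with rfl | g2
      · exact absurd rfl hne
      · exact disjoint_of_subset_right (hFU _ g2) hdisj
      · exact (disjoint_of_subset_right (hFU _ g1) hdisj).symm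
      · exact h3 _ g1 _ g2 hne
    · refine union_subset hU ?_
      intro y hy
      simp only [mem_insert, mem_singleton] at hy
      rcases hy with rfl | rfl | rfl | rfl
      · exact ha.1
      · exact hb.1
      · exact hc.1
      · exact hd.1
    · have h4 := card_union_le U {a, b, c, d}
      have h5 : ({a, b, c, d} : Finset Pt).card ≤ 4 := card_le_four
      omega
    · intro τ' hτ'
      rcases mem_insert.1 hτ' with rfl | h
      · exact hτ.trans subset_union_right
      · exact (hFU _ h).trans subset_union_left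

end Pool.Agent.J4H45.SB
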