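import Pool.Agent.J4H45.SB.Saw

/-!
# The order of growth of the sample size
-/

namespace Pool.Agent.J4H45.SB

open Finset

theorem rpow_cube {x : ℝ} (hx : 0 ≤ x) : (x ^ (2 / 3 : ℝ)) ^ 3 = x ^ 2 := by
  rw [← Real.rpow_natCast, ← Real.rpow_mul hx]
  norm_num

/-- the whole configuration is rejected -/
theorem top_mem {ε p : ℝ} (hε : 0 < ε) (hp : 0 ≤ p) {n : ℕ} (hn : 1 ≤ n) :
    n ∈ {s : ℕ | s ≤ n ∧ ∀ S : Finset Pt, S.card = n → GenPos S → Far ε S → acc S s ≤ p} := by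
  classical
  refine ⟨le_refl _, fun S hS _ hfar => ?_⟩
  have hnc : ¬ Cvx S := by
    intro h
    have h1 := hfar S (Subset.refl _) h
    rw [hS] at h1
    have : (1 : ℝ) ≤ n := by exact_mod_cast hn
    nlinarith
  unfold acc
  have h1 : S.powersetCard n = {S} := by rw [← hS, powersetCard_self]
  rw [h1]
  have h2 : ({S} : Finset (Finset Pt)).filter Cvx = ∅ := by
    rw [filter_singleton, if_neg hnc]
  rw [h2]
  simpa using hp

/-- the lower bound -/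
theorem lower {p : ℝ} (hp : 0 < p) (hp1 : p < 1) {n : ℕ} (hn : 8 ≤ n) :
    (3 * (1 - p)) ^ (1 / 3 : ℝ) * (n : ℝ) ^ (2 / 3 : ℝ) ≤ sp (1 / 4) p n := by
  have hmem := Nat.sInf_mem (s := {s : ℕ | s ≤ n ∧ ∀ S : Finset Pt, S.card = n → GenPos S →
    Far (1 / 4) S → acc S s ≤ p}) ⟨n, top_mem (by norm_num) hp.le (by omega)⟩
  obtain ⟨h1, h2⟩ := hmem
  have h3 := h2 (saw n) (card_saw n) (genPos_saw n) (far_saw hn)
  have h4 := acc_saw hn h1
  set s := sInf {s : ℕ | s ≤ n ∧ ∀ S : Finset Pt, S.card = n → GenPos S →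
    Far (1 / 4) S → acc S s ≤ p} with hs
  have hsp : (sp (1 / 4) p n : ℝ) = s := rfl
  rw [hsp]
  have hn0 : (0 : ℝ) < n := by exact_mod_cast (by omega : 0 < n)
  have h5 : 1 - p ≤ (s : ℝ) ^ 3 / (3 * (n : ℝ) ^ 2) := by linarith
  rw [le_div_iff₀ (by positivity)] at h5
  have h6 : ((3 * (1 - p)) ^ (1 / 3 : ℝ) * (n : ℝ) ^ (2 / 3 : ℝ)) ^ 3 ≤ (s : ℝ) ^ 3 := by
    rw [mul_pow, rpow_cube hn0.le, ← Real.rpow_natCast, ← Real.rpow_mul (by linarith)]
    norm_num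
    linarith
  exact le_of_pow_le_pow_left₀ (by norm_num) (by positivity) h6

theorem exp_small {δ : ℝ} (hδ : 0 < δ) : ∃ t0 : ℕ, ∀ t ≥ t0,
    ((t : ℝ) ^ 2) * (3 / 4 : ℝ) ^ t ≤ δ := by
  have h := tendsto_pow_const_mul_const_pow_of_abs_lt_one 2 (r := (3 / 4 : ℝ))
    (by rw [abs_of_pos] <;> norm_num)
  have h2 := h.eventually (gt_mem_nhds hδ)
  obtain ⟨t0, ht0⟩ := Filter.eventually_atTop.1 h2
  exact ⟨t0, fun t ht => (ht0 t ht).le⟩

/-- the upper bound -/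
theorem upper {ε p : ℝ} (hε : 0 < ε) (hε1 : ε < 1) (hp : 0 < p) :
    ∃ C : ℝ, 0 < C ∧ ∃ n0 : ℕ, ∀ n ≥ n0, (sp ε p n : ℝ) ≤ C * (n : ℝ) ^ (2 / 3 : ℝ) := by
  -- the constant
  obtain ⟨B, hB⟩ : ∃ B : ℝ, B = max 2 (8 / (ε * p)) := ⟨_, rfl⟩
  have hB2 : 2 ≤ B := by rw [hB]; exact le_max_left _ _
  have hB3 : 8 / (ε * p) ≤ B := by rw [hB]; exact le_max_right _ _
  obtain ⟨t0, ht0⟩ := exp_small (δ := p / 2) (by positivity)
  have hlim : Filter.Tendsto (fun n : ℕ => (n : ℝ) ^ (1 / 3 : ℝ)) Filter.atTop Filter.atTop :=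
    (tendsto_rpow_atTop (by norm_num)).comp tendsto_natCast_atTop_atTop
  obtain ⟨n1, hn1⟩ := Filter.eventually_atTop.1
    (hlim.eventually (Filter.eventually_ge_atTop (B + 6)))
  refine ⟨B + 6, by linarith, max n1 ((t0 + 8) ^ 3), fun n hn => ?_⟩
  have hn1' := hn1 n (le_of_max_le_left hn)
  have hn2 : (t0 + 8) ^ 3 ≤ n := le_of_max_le_right hn
  have hn8 : 8 ≤ n := by
    calc 8 ≤ (t0 + 8) ^ 1 := by rw [pow_one]; omega
      _ ≤ (t0 + 8) ^ 3 := Nat.pow_le_pow_right (by omega) (by norm_num)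
      _ ≤ n := hn2
  have hn0 : (0 : ℝ) < n := by exact_mod_cast (by omega : 0 < n)
  have hn1R : (1 : ℝ) ≤ n := by exact_mod_cast (by omega : 1 ≤ n)
  set y : ℝ := (n : ℝ) ^ (2 / 3 : ℝ) with hy
  have hy1 : 1 ≤ y := Real.one_le_rpow hn1R (by norm_num)
  have hy3 : y ^ 3 = (n : ℝ) ^ 2 := rpow_cube hn0.le
  have hyn : (n : ℝ) ^ (1 / 3 : ℝ) * y = n := by
    rw [hy, ← Real.rpow_add hn0]; norm_num
  obtain ⟨c, hc⟩ : ∃ c : ℕ, c = ⌈B * y⌉₊ := ⟨_, rfl⟩
  have hc1 : B * y ≤ c := by rw [hc]; exact Nat.le_ceil _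
  have hc2 : (c : ℝ) < B * y + 1 := by rw [hc]; exact Nat.ceil_lt_add_one (by positivity)
  -- the sample size `c + 5`
  have hs1 : ((c + 5 : ℕ) : ℝ) ≤ (B + 6) * y := by
    push_cast
    nlinarith
  have hs2 : c + 5 ≤ n := by
    have : ((c + 5 : ℕ) : ℝ) ≤ n := by
      refine hs1.trans ?_
      rw [← hyn]
      exact mul_le_mul_of_nonneg_right hn1' (by linarith)
    exact_mod_cast this
  have hc3 : 2 ≤ c := by
    have : (2 : ℝ) ≤ c := by nlinarith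
    exact_mod_cast this
  obtain ⟨t, ht⟩ : ∃ t, c + 5 = t + 6 := ⟨c - 1, by omega⟩
  obtain ⟨m, hm⟩ : ∃ m, n = m + 6 := ⟨n - 6, by omega⟩
  have htm : t ≤ m := by omega
  have hmem : c + 5 ∈ {s : ℕ | s ≤ n ∧ ∀ S : Finset Pt, S.card = n → GenPos S → Far ε S →
      acc S s ≤ p} := by
    refine ⟨hs2, fun S hS hgen hfar => ?_⟩
    -- the number of triples
    obtain ⟨k, hk⟩ : ∃ k : ℕ, k = ⌈ε * n / 4⌉₊ := ⟨_, rfl⟩
    have hk1 : ε * n / 4 ≤ k := by rw [hk]; exact Nat.le_ceil _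
    have hk2 : (k : ℝ) < ε * n / 4 + 1 := by rw [hk]; exact Nat.ceil_lt_add_one (by positivity)
    have hkpos : 0 < k := by
      have : (0 : ℝ) < k := lt_of_lt_of_le (by positivity) hk1
      exact_mod_cast this
    have hkn : (k : ℝ) ≤ n := by
      have h2 : (8 : ℝ) ≤ n := by exact_mod_cast hn8
      nlinarith
    have h1 := acc_le hgen hfar (m := m) (t := t) (k := k) (by rw [hS, hm]) (by omega) htm hkpos
      (by rw [hS]; linarith)
    rw [ht]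
    refine h1.trans ?_
    have e1 : t + 4 = c + 3 := by omega
    have e2 : t + 3 = c + 2 := by omega
    rw [← hm, e1, e2]
    -- the first term
    have hkR : (0 : ℝ) < k := by exact_mod_cast hkpos
    have hfirst : (n : ℝ) ^ 3 / (k * ((c + 3 : ℕ) : ℝ) ^ 3) ≤ p / 2 := by
      rw [div_le_iff₀ (by positivity)]
      have h3 : B ^ 3 * (n : ℝ) ^ 2 ≤ ((c + 3 : ℕ) : ℝ) ^ 3 := by
        rw [← hy3, ← mul_pow]
        refine pow_le_pow_left₀ (by positivity) ?_ 3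
        push_cast
        linarith
      have h4 : B ≤ B ^ 3 := by nlinarith [mul_pos (by linarith : 0 < B) (by linarith : 0 < B)]
      have h5 : 8 ≤ B * (ε * p) := by
        rwa [div_le_iff₀ (by positivity)] at hB3
      calc (n : ℝ) ^ 3 = 8 * (n : ℝ) ^ 3 / 8 := by ring
        _ ≤ (B * (ε * p)) * (n : ℝ) ^ 3 / 8 := by
            have : 0 ≤ (n : ℝ) ^ 3 := by positivity
            nlinarith
        _ ≤ (B ^ 3 * (ε * p)) * (n : ℝ) ^ 3 / 8 := by
            have : 0 ≤ (ε * p) * (n : ℝ) ^ 3 := by positivity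
            nlinarith
        _ = p / 2 * ((ε * n / 4) * (B ^ 3 * (n : ℝ) ^ 2)) := by ring
        _ ≤ p / 2 * (k * ((c + 3 : ℕ) : ℝ) ^ 3) := by
            refine mul_le_mul_of_nonneg_left ?_ (by positivity)
            exact mul_le_mul hk1 h3 (by positivity) hkR.le
    -- the second term
    have hsecond : (k : ℝ) * (3 / 4 : ℝ) ^ (c + 2) ≤ p / 2 := by
      have h3 : t0 ≤ c + 2 := by
        have h4 : ((t0 + 8 : ℕ) : ℝ) ^ 3 ≤ y ^ 3 := by
          rw [hy3]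
          have h5 : ((t0 + 8 : ℕ) : ℝ) ^ 3 ≤ n := by exact_mod_cast hn2
          nlinarith
        have h5 := le_of_pow_le_pow_left₀ (by norm_num) (by positivity) h4
        have h6 : ((t0 + 8 : ℕ) : ℝ) ≤ c := by nlinarith
        have h7 : t0 + 8 ≤ c := by exact_mod_cast h6
        omega
      refine le_trans ?_ (ht0 (c + 2) h3)
      refine mul_le_mul_of_nonneg_right ?_ (by positivity)
      have h4 : y ≤ ((c + 2 : ℕ) : ℝ) := by push_cast; nlinarith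
      have h5 : (n : ℝ) ≤ y ^ 2 := by
        have h6 : (n : ℝ) ^ 2 ≤ (y ^ 2) ^ 2 := by
          rw [← hy3]
          nlinarith [pow_pos (by linarith : 0 < y) 3]
        exact le_of_pow_le_pow_left₀ (by norm_num) (by positivity) h6
      have h7 : y ^ 2 ≤ ((c + 2 : ℕ) : ℝ) ^ 2 := pow_le_pow_left₀ (by linarith) h4 2
      linarith
    linarith
  have h1 : sp ε p n ≤ c + 5 := Nat.sInf_le hmem
  have h2 : (sp ε p n : ℝ) ≤ ((c + 5 : ℕ) : ℝ) := by exact_mod_cast h1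
  linarith

end Pool.Agent.J4H45.SB
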