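import Pool.Agent.J4H45.SB.Upper

/-!
# The sawtooth configurations
-/

namespace Pool.Agent.J4H45.SB

open Finset

/-- the abscissa -/
def xn (j : ℕ) : ℕ := j + 3 * (j / 3)

/-- the elevation -/
noncomputable def ev (j : ℕ) : ℝ := if j % 3 = 1 then 3 / 2 else 0

/-- the points of the sawtooth configuration -/
noncomputable def pt (j : ℕ) : Pt := ((xn j : ℝ), (xn j : ℝ) ^ 2 + ev j)

theorem xn_lt {i j : ℕ} (h : i < j) : xn i < xn j := by
  unfold xn; omega

theorem ev_nonneg (j : ℕ) : 0 ≤ ev j := by unfold ev; split_ifs <;> norm_num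

theorem pt_inj : Function.Injective pt := by
  intro i j h
  have h1 : (xn i : ℝ) = xn j := congrArg Prod.fst h
  have h2 : xn i = xn j := by exact_mod_cast h1
  rcases lt_trichotomy i j with h3 | h3 | h3
  · exact absurd h2 (xn_lt h3).ne
  · exact h3
  · exact absurd h2 (xn_lt h3).ne'

/-- the sawtooth configuration -/
noncomputable def saw (n : ℕ) : Finset Pt := (range n).image pt

theorem card_saw (n : ℕ) : (saw n).card = n := by
  rw [saw, card_image_of_injective _ pt_inj, card_range]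

theorem gap {j j' : ℕ} (h1 : j % 3 = 1) (h2 : j' ≠ j) (h3 : j' ≠ j + 1) (h4 : j' + 1 ≠ j) :
    xn j + 5 ≤ xn j' ∨ xn j' + 5 ≤ xn j := by
  unfold xn; omega

theorem nb_r {j : ℕ} (h1 : j % 3 = 1) : xn (j + 1) = xn j + 1 ∧ ev (j + 1) = 0 := by
  constructor
  · unfold xn; omega
  · unfold ev; rw [if_neg (by omega)]

theorem nb_l {j j' : ℕ} (h1 : j % 3 = 1) (h : j' + 1 = j) : xn j = xn j' + 1 ∧ ev j' = 0 := by
  constructor
  · unfold xn; omega
  · unfold ev; rw [if_neg (by omega)]

theorem det_of_collinear {a b c : Pt} (h : Collinear ℝ ({a, b, c} : Set Pt)) :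
    (b.1 - a.1) * (c.2 - a.2) = (c.1 - a.1) * (b.2 - a.2) := by
  obtain ⟨v, hv⟩ := (collinear_iff_of_mem (p₀ := a) (by simp)).1 h
  obtain ⟨r, hr⟩ := hv b (by simp)
  obtain ⟨s, hs⟩ := hv c (by simp)
  rw [hr, hs]
  simp only [vadd_eq_add, Prod.fst_add, Prod.snd_add, Prod.smul_fst, Prod.smul_snd, smul_eq_mul]
  ring

theorem not_collinear_sorted {i j k : ℕ} (hij : i < j) (hjk : j < k) :
    ¬ Collinear ℝ ({pt i, pt j, pt k} : Set Pt) := by
  intro h
  have h1 := det_of_collinear h
  simp only [pt] at h1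
  have e1 := ev_nonneg i
  have e3 := ev_nonneg k
  have x1 : (xn i : ℝ) + 1 ≤ xn j := by exact_mod_cast xn_lt hij
  have x2 : (xn j : ℝ) + 1 ≤ xn k := by exact_mod_cast xn_lt hjk
  have key : ((xn k : ℝ) - xn i) * (((xn j : ℝ) - xn i) * ((xn k : ℝ) - xn j) - ev j) +
      (((xn j : ℝ) - xn i) * ev k + ((xn k : ℝ) - xn j) * ev i) = 0 := by
    linear_combination h1
  by_cases hj : j % 3 = 1
  · have ej : ev j = 3 / 2 := by unfold ev; rw [if_pos hj]
    by_cases hk : k = j + 1
    · by_cases hi : i + 1 = j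
      · have g1 := nb_r hj
        have g2 := nb_l hj hi
        rw [hk] at key
        rw [g1.2, g2.2, ej] at key
        have g3 : ((xn (j + 1) : ℕ) : ℝ) = xn j + 1 := by rw [g1.1]; push_cast; ring
        have g4 : ((xn j : ℕ) : ℝ) = xn i + 1 := by rw [g2.1]; push_cast; ring
        rw [g3] at key
        rw [show ((xn i : ℕ) : ℝ) = xn j - 1 by rw [g4]; ring] at key
        norm_num at key
      · rcases gap (j' := i) hj (by omega) (by omega) (by omega) with g | g
        · have := xn_lt hij; omega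
        · have g' : (xn i : ℝ) + 5 ≤ xn j := by exact_mod_cast g
          have p1 : 5 ≤ ((xn j : ℝ) - xn i) * ((xn k : ℝ) - xn j) := by nlinarith
          have p2 : 0 < ((xn k : ℝ) - xn i) * (((xn j : ℝ) - xn i) * ((xn k : ℝ) - xn j) - ev j) :=
            mul_pos (by linarith) (by rw [ej]; linarith)
          have p3 : 0 ≤ ((xn j : ℝ) - xn i) * ev k := mul_nonneg (by linarith) e3
          have p4 : 0 ≤ ((xn k : ℝ) - xn j) * ev i := mul_nonneg (by linarith) e1
          linarith
    · rcases gap (j' := k) hj (by omega) hk (by omega) with g | g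
      · have g' : (xn j : ℝ) + 5 ≤ xn k := by exact_mod_cast g
        have p1 : 5 ≤ ((xn j : ℝ) - xn i) * ((xn k : ℝ) - xn j) := by nlinarith
        have p2 : 0 < ((xn k : ℝ) - xn i) * (((xn j : ℝ) - xn i) * ((xn k : ℝ) - xn j) - ev j) :=
          mul_pos (by linarith) (by rw [ej]; linarith)
        have p3 : 0 ≤ ((xn j : ℝ) - xn i) * ev k := mul_nonneg (by linarith) e3
        have p4 : 0 ≤ ((xn k : ℝ) - xn j) * ev i := mul_nonneg (by linarith) e1
        linarith
      · have := xn_lt hjk; omega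
  · have ej : ev j = 0 := by unfold ev; rw [if_neg hj]
    have p1 : 1 ≤ ((xn j : ℝ) - xn i) * ((xn k : ℝ) - xn j) := by nlinarith
    have p2 : 0 < ((xn k : ℝ) - xn i) * (((xn j : ℝ) - xn i) * ((xn k : ℝ) - xn j) - ev j) :=
      mul_pos (by linarith) (by rw [ej]; linarith)
    have p3 : 0 ≤ ((xn j : ℝ) - xn i) * ev k := mul_nonneg (by linarith) e3
    have p4 : 0 ≤ ((xn k : ℝ) - xn j) * ev i := mul_nonneg (by linarith) e1
    linarith

theorem genPos_saw (n : ℕ) : GenPos (saw n) := by
  intro a ha b hb c hc hab hac hbc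
  rw [saw, mem_image] at ha hb hc
  obtain ⟨i, -, rfl⟩ := ha
  obtain ⟨j, -, rfl⟩ := hb
  obtain ⟨k, -, rfl⟩ := hc
  have h1 : i ≠ j := fun h => hab (by rw [h])
  have h2 : i ≠ k := fun h => hac (by rw [h])
  have h3 : j ≠ k := fun h => hbc (by rw [h])
  have perm : ∀ x y z : Pt, ({x, y, z} : Set Pt) = {x, z, y} := fun x y z => by
    ext w; simp only [Set.mem_insert_iff, Set.mem_singleton_iff]; tauto
  have perm2 : ∀ x y z : Pt, ({x, y, z} : Set Pt) = {y, x, z} := fun x y z => by
    ext w; simp only [Set.mem_insert_iff, Set.mem_singleton_iff]; tauto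
  rcases lt_or_gt_of_ne h1 with g1 | g1 <;> rcases lt_or_gt_of_ne h2 with g2 | g2 <;>
    rcases lt_or_gt_of_ne h3 with g3 | g3
  · exact not_collinear_sorted g1 g3
  · rw [perm]; exact not_collinear_sorted g2 g3
  · omega
  · rw [perm, perm2]; exact not_collinear_sorted g2 g1
  · rw [perm2]; exact not_collinear_sorted g1 g2
  · omega
  · rw [perm2, perm]; exact not_collinear_sorted g3 g2
  · rw [perm2, perm, perm2]; exact not_collinear_sorted g3 g1

/-- a supporting line -/
theorem not_mem_hull_of_line {T : Finset Pt} {j : ℕ} (s : ℝ)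
    (h : ∀ y ∈ T, y ≠ pt j → (pt j).2 - s * (pt j).1 < y.2 - s * y.1) :
    pt j ∉ convexHull ℝ ((T : Set Pt) \ {pt j}) := by
  have hconv : Convex ℝ {y : Pt | (pt j).2 - s * (pt j).1 < y.2 - s * y.1} := by
    refine convex_halfSpace_gt (f := fun y : Pt => y.2 - s * y.1) ⟨?_, ?_⟩ _
    · intro x y; simp only [Prod.fst_add, Prod.snd_add]; ring
    · intro c x; simp only [Prod.smul_fst, Prod.smul_snd, smul_eq_mul]; ring
  intro hmem
  have hsub : ((T : Set Pt) \ {pt j}) ⊆ {y : Pt | (pt j).2 - s * (pt j).1 < y.2 - s * y.1} :=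
    fun y hy => h y hy.1 hy.2
  have := convexHull_min hsub hconv hmem
  rw [Set.mem_ofPred_eq] at this
  exact lt_irrefl _ this

/-- a subset without a full tooth is convex -/
theorem cvx_of_no_tooth {n : ℕ} {T : Finset Pt} (hT : T ⊆ saw n)
    (h : ∀ i, ¬ (pt (3 * i) ∈ T ∧ pt (3 * i + 1) ∈ T ∧ pt (3 * i + 2) ∈ T)) : Cvx T := by
  intro x hx
  obtain ⟨j, -, rfl⟩ := mem_image.1 (hT hx)
  by_cases hj : j % 3 = 1
  · have ej : ev j = 3 / 2 := by unfold ev; rw [if_pos hj]
    obtain ⟨i, hi⟩ : ∃ i, j = 3 * i + 1 := ⟨j / 3, by omega⟩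
    by_cases hr : pt (j + 1) ∈ T
    · have hl : pt (3 * i) ∉ T := fun hl => h i ⟨hl, by rw [← hi]; exact hx, by
        rw [show 3 * i + 2 = j + 1 by omega]; exact hr⟩
      refine not_mem_hull_of_line (2 * (xn j : ℝ) - 1) fun y hy hne => ?_
      obtain ⟨j', -, rfl⟩ := mem_image.1 (hT hy)
      have hjj : j' ≠ j := fun h => hne (by rw [h])
      have hl' : j' + 1 ≠ j := by
        intro h'
        apply hl
        rw [show 3 * i = j' by omega]
        exact hy
      have e' := ev_nonneg j'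
      simp only [pt]
      rw [ej]
      by_cases hr' : j' = j + 1
      · obtain ⟨g1, g2⟩ := nb_r hj
        rw [hr', g2, g1]
        push_cast
        nlinarith
      · rcases gap hj hjj hr' hl' with g | g
        · have g' : (xn j : ℝ) + 5 ≤ xn j' := by exact_mod_cast g
          nlinarith
        · have g' : (xn j' : ℝ) + 5 ≤ xn j := by exact_mod_cast g
          nlinarith
    · refine not_mem_hull_of_line (2 * (xn j : ℝ) + 1) fun y hy hne => ?_
      obtain ⟨j', -, rfl⟩ := mem_image.1 (hT hy)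
      have hjj : j' ≠ j := fun h => hne (by rw [h])
      have hr' : j' ≠ j + 1 := by
        rintro rfl
        exact hr hy
      have e' := ev_nonneg j'
      simp only [pt]
      rw [ej]
      by_cases hl' : j' + 1 = j
      · obtain ⟨g1, g2⟩ := nb_l hj hl'
        rw [g2, g1]
        push_cast
        nlinarith
      · rcases gap hj hjj hr' hl' with g | g
        · have g' : (xn j : ℝ) + 5 ≤ xn j' := by exact_mod_cast g
          nlinarith
        · have g' : (xn j' : ℝ) + 5 ≤ xn j := by exact_mod_cast g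
          nlinarith
  · have ej : ev j = 0 := by unfold ev; rw [if_neg hj]
    refine not_mem_hull_of_line (2 * (xn j : ℝ)) fun y hy hne => ?_
    obtain ⟨j', -, rfl⟩ := mem_image.1 (hT hy)
    have hjj : j' ≠ j := fun h => hne (by rw [h])
    have e' := ev_nonneg j'
    simp only [pt]
    rw [ej]
    have hx : (xn j' : ℝ) ≠ xn j := by
      intro h
      have h' : xn j' = xn j := by exact_mod_cast h
      rcases lt_or_gt_of_ne hjj with g | g
      · exact absurd h' (xn_lt g).ne
      · exact absurd h' (xn_lt g).ne'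
    have : 0 < ((xn j' : ℝ) - xn j) ^ 2 := by
      have : ((xn j' : ℝ) - xn j) ≠ 0 := sub_ne_zero.2 hx
      positivity
    nlinarith

/-- a full tooth and another point are not in convex position -/
theorem not_cvx_of_tooth {T : Finset Pt} {i j : ℕ} (h0 : pt (3 * i) ∈ T)
    (h1 : pt (3 * i + 1) ∈ T) (h2 : pt (3 * i + 2) ∈ T) (hj : pt j ∈ T)
    (hj0 : j ≠ 3 * i) (hj1 : j ≠ 3 * i + 1) (hj2 : j ≠ 3 * i + 2) : ¬ Cvx T := by
  have hne : ∀ {a b : ℕ}, a ≠ b → pt a ≠ pt b := fun h h' => h (pt_inj h')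
  refine not_cvx_of_mem h1 hj h0 h2 (hne hj1) (hne (by omega)) (hne (by omega)) ?_
  have hm : (3 * i + 1) % 3 = 1 := by omega
  obtain ⟨g1, g2⟩ := nb_r hm
  obtain ⟨g3, g4⟩ := nb_l (j' := 3 * i) hm rfl
  have e1 : ev (3 * i + 1) = 3 / 2 := by unfold ev; rw [if_pos hm]
  have ee := ev_nonneg j
  have hgap := gap hm hj1 (by omega) (by omega)
  have hA : pt (3 * i) = ((xn (3 * i + 1) : ℝ) - 1, ((xn (3 * i + 1) : ℝ) - 1) ^ 2) := by
    unfold pt
    rw [g4, g3]; push_cast; simp
  have hB : pt (3 * i + 2) = ((xn (3 * i + 1) : ℝ) + 1, ((xn (3 * i + 1) : ℝ) + 1) ^ 2) := by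
    unfold pt
    rw [show 3 * i + 2 = 3 * i + 1 + 1 by ring, g2, g1]; push_cast; simp
  have hD : pt (3 * i + 1) = ((xn (3 * i + 1) : ℝ), (xn (3 * i + 1) : ℝ) ^ 2 + 3 / 2) := by
    unfold pt
    rw [e1]
  have hJ : pt j = ((xn j : ℝ), (xn j : ℝ) ^ 2 + ev j) := rfl
  rw [hA, hB, hD, hJ]
  have hgapR : (xn (3 * i + 1) : ℝ) + 5 ≤ xn j ∨ (xn j : ℝ) + 5 ≤ xn (3 * i + 1) := by
    rcases hgap with g | g
    · left; exact_mod_cast g
    · right; exact_mod_cast g
  generalize (xn (3 * i + 1) : ℝ) = x at *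
  generalize (xn j : ℝ) = X at *
  generalize ev j = e at *
  obtain ⟨h, rfl⟩ : ∃ h, X = x + h := ⟨X - x, by ring⟩
  have habs : 5 ≤ h ∨ h ≤ -5 := by
    rcases hgapR with g | g
    · left; linarith
    · right; linarith
  have hDpos : 24 ≤ h ^ 2 + e - 1 := by
    rcases habs with g | g <;> nlinarith
  set D := h ^ 2 + e - 1 with hDdef
  have hD0 : 0 < D := by linarith
  have hDne : D ≠ 0 := hD0.ne'
  have b1 : (1 / (2 * D)) * (1 + h) ≤ 1 := by
    rw [div_mul_eq_mul_div, div_le_one (by positivity)]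
    rcases habs with g | g <;> nlinarith
  have b2 : (1 / (2 * D)) * (1 - h) ≤ 1 := by
    rw [div_mul_eq_mul_div, div_le_one (by positivity)]
    rcases habs with g | g <;> nlinarith
  have hα : (1 / (2 * D)) * (h ^ 2 + e - 1) = 1 / 2 := by
    rw [← hDdef]; field_simp
  set α := 1 / (2 * D) with hαdef
  have hα0 : 0 ≤ α := by rw [hαdef]; positivity
  refine mem_hull3.2 ⟨α, (1 - α + α * h) / 2, (1 - α - α * h) / 2, hα0, by linarith, by linarith,
    by ring, ?_⟩
  refine Prod.ext ?_ ?_
  · simp only [Prod.smul_mk, Prod.mk_add_mk, smul_eq_mul]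
    ring
  · simp only [Prod.smul_mk, Prod.mk_add_mk, smul_eq_mul]
    linear_combination hα

/-- the sawtooth configuration is far from convex -/
theorem far_saw {n : ℕ} (hn : 8 ≤ n) : Far (1 / 4) (saw n) := by
  classical
  intro T hT hcv
  rw [card_saw]
  rcases le_or_gt T.card 3 with h3 | h3
  · have h4 : (T.card : ℝ) ≤ 3 := by exact_mod_cast h3
    have h5 : (8 : ℝ) ≤ n := by exact_mod_cast hn
    linarith
  -- no full tooth
  have hno : ∀ i, ¬ (pt (3 * i) ∈ T ∧ pt (3 * i + 1) ∈ T ∧ pt (3 * i + 2) ∈ T) := by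
    rintro i ⟨g0, g1, g2⟩
    obtain ⟨y, hy, hyn⟩ : ∃ y ∈ T, y ∉ ({pt (3 * i), pt (3 * i + 1), pt (3 * i + 2)} : Finset Pt) := by
      by_contra hcon
      push Not at hcon
      have : T.card ≤ ({pt (3 * i), pt (3 * i + 1), pt (3 * i + 2)} : Finset Pt).card :=
        card_le_card hcon
      have h5 : ({pt (3 * i), pt (3 * i + 1), pt (3 * i + 2)} : Finset Pt).card ≤ 3 :=
        card_le_three
      omega
    obtain ⟨j, -, rfl⟩ := mem_image.1 (hT hy)
    simp only [mem_insert, mem_singleton, not_or] at hyn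
    exact not_cvx_of_tooth g0 g1 g2 hy (fun h => hyn.1 (by rw [h])) (fun h => hyn.2.1 (by rw [h]))
      (fun h => hyn.2.2 (by rw [h])) hcv
  have hmiss : ∀ i, ∃ r, r < 3 ∧ pt (3 * i + r) ∉ T := by
    intro i
    by_contra hcon
    push Not at hcon
    exact hno i ⟨hcon 0 (by omega), hcon 1 (by omega), hcon 2 (by omega)⟩
  choose r hr1 hr2 using hmiss
  have hinj : Function.Injective (fun i => pt (3 * i + r i)) := by
    intro i i' h
    have := pt_inj h
    have g1 := hr1 i
    have g2 := hr1 i'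
    omega
  have hsub : (range (n / 3)).image (fun i => pt (3 * i + r i)) ⊆ saw n \ T := by
    intro y hy
    obtain ⟨i, hi, rfl⟩ := mem_image.1 hy
    rw [mem_range] at hi
    rw [mem_sdiff]
    refine ⟨mem_image.2 ⟨_, ?_, rfl⟩, hr2 i⟩
    rw [mem_range]
    have := hr1 i
    omega
  have hc := card_le_card hsub
  rw [card_image_of_injective _ hinj, card_range, card_sdiff_of_subset hT, card_saw] at hc
  have hTn : T.card ≤ n := by
    have := card_le_card hT
    rwa [card_saw] at this
  have h4 : 4 * T.card ≤ 3 * n := by omega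
  have h5 : (4 : ℝ) * T.card ≤ 3 * n := by exact_mod_cast h4
  linarith

/-- the acceptance probability for the sawtooth configuration -/
theorem acc_saw {n s : ℕ} (hn : 8 ≤ n) (hs : s ≤ n) :
    1 - (s : ℝ) ^ 3 / (3 * (n : ℝ) ^ 2) ≤ acc (saw n) s := by
  classical
  have hn0 : (0 : ℝ) < n := by exact_mod_cast (by omega : 0 < n)
  set P := (saw n).powersetCard s with hP
  have hPc : P.card = n.choose s := by rw [hP, card_powersetCard, card_saw]
  have hNpos : (0 : ℝ) < n.choose s := by exact_mod_cast Nat.choose_pos hs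
  have hacc : acc (saw n) s = ((P.filter Cvx).card : ℝ) / (n.choose s : ℝ) := by
    unfold acc; rw [← hPc]
  have hsplit : (P.filter Cvx).card + (P.filter (fun T => ¬ Cvx T)).card = n.choose s := by
    rw [← hPc]; exact card_filter_add_card_filter_not _
  have hsplitR : ((P.filter Cvx).card : ℝ) + ((P.filter (fun T => ¬ Cvx T)).card : ℝ) =
      n.choose s := by exact_mod_cast hsplit
  let τ : ℕ → Finset Pt := fun i => {pt (3 * i), pt (3 * i + 1), pt (3 * i + 2)}
  have hτc : ∀ i, (τ i).card = 3 := by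
    intro i
    have hne : ∀ {a b : ℕ}, a ≠ b → pt a ≠ pt b := fun h h' => h (pt_inj h')
    exact card_eq_three.2 ⟨_, _, _, hne (by omega), hne (by omega), hne (by omega), rfl⟩
  have hcover : P.filter (fun T => ¬ Cvx T) ⊆
      (range (n / 3)).biUnion (fun i => P.filter (fun T => τ i ⊆ T)) := by
    intro T hT
    rw [mem_filter, hP, mem_powersetCard] at hT
    have hex : ∃ i, pt (3 * i) ∈ T ∧ pt (3 * i + 1) ∈ T ∧ pt (3 * i + 2) ∈ T := by
      by_contra hcon
      push Not at hcon
      exact hT.2 (cvx_of_no_tooth hT.1.1 fun i h => hcon i h.1 h.2.1 h.2.2)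
    obtain ⟨i, g0, g1, g2⟩ := hex
    rw [mem_biUnion]
    refine ⟨i, ?_, ?_⟩
    · obtain ⟨j, hj, he⟩ := mem_image.1 (hT.1.1 g2)
      have := pt_inj he
      rw [mem_range] at hj ⊢
      omega
    · rw [mem_filter, hP, mem_powersetCard]
      refine ⟨hT.1, ?_⟩
      intro y hy
      simp only [τ, mem_insert, mem_singleton] at hy
      rcases hy with rfl | rfl | rfl <;> assumption
  have hbad : ((P.filter (fun T => ¬ Cvx T)).card : ℝ) ≤
      (s : ℝ) ^ 3 / (3 * (n : ℝ) ^ 2) * n.choose s := by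
    have h1 := (card_le_card hcover).trans card_biUnion_le
    rcases lt_or_ge s 3 with h3 | h3
    · have h2 : ∑ i ∈ range (n / 3), (P.filter (fun T => τ i ⊆ T)).card = 0 := by
        refine sum_eq_zero fun i _ => ?_
        rw [card_eq_zero, filter_eq_empty_iff]
        intro T hT hsub
        rw [hP, mem_powersetCard] at hT
        have := card_le_card hsub
        rw [hτc, hT.2] at this
        omega
      rw [h2] at h1
      have h4 : ((P.filter (fun T => ¬ Cvx T)).card : ℝ) ≤ 0 := by exact_mod_cast h1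
      refine h4.trans (by positivity)
    · obtain ⟨t, rfl⟩ : ∃ t, s = t + 3 := ⟨s - 3, by omega⟩
      obtain ⟨m, rfl⟩ : ∃ m, n = m + 3 := ⟨n - 3, by omega⟩
      have h2 : ∀ i ∈ range ((m + 3) / 3), (P.filter (fun T => τ i ⊆ T)).card = m.choose t := by
        intro i hi
        rw [mem_range] at hi
        have hsub : τ i ⊆ saw (m + 3) := by
          intro y hy
          simp only [τ, mem_insert, mem_singleton] at hy
          rcases hy with rfl | rfl | rfl
          · exact mem_image.2 ⟨_, by rw [mem_range]; omega, rfl⟩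
          · exact mem_image.2 ⟨_, by rw [mem_range]; omega, rfl⟩
          · exact mem_image.2 ⟨_, by rw [mem_range]; omega, rfl⟩
        rw [hP, card_super hsub (by rw [hτc]; omega), hτc, card_saw]
        congr 1
      rw [sum_congr rfl h2, sum_const, card_range, smul_eq_mul] at h1
      have h3' := choose_down3 m t
      have hc : m.choose t * (m + 3) ^ 3 ≤ (m + 3).choose (t + 3) * (t + 3) ^ 3 := by
        have hpos : 0 < (m + 3) * (m + 2) * (m + 1) := by positivity
        refine Nat.le_of_mul_le_mul_right ?_ hpos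
        have hcmp : (t + 3) * (t + 2) * (t + 1) * (m + 3) ^ 3 ≤
            (t + 3) ^ 3 * ((m + 3) * (m + 2) * (m + 1)) := by
          have htm : t ≤ m := by omega
          have q2 : (t + 2) * (m + 3) ≤ (t + 3) * (m + 2) := by nlinarith
          have q1 : (t + 1) * (m + 3) ≤ (t + 3) * (m + 1) := by nlinarith
          calc (t + 3) * (t + 2) * (t + 1) * (m + 3) ^ 3
              = ((t + 3) * (m + 3)) * (((t + 2) * (m + 3)) * ((t + 1) * (m + 3))) := by ring
            _ ≤ ((t + 3) * (m + 3)) * (((t + 3) * (m + 2)) * ((t + 3) * (m + 1))) :=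
                Nat.mul_le_mul_left _ (Nat.mul_le_mul q2 q1)
            _ = _ := by ring
        calc m.choose t * (m + 3) ^ 3 * ((m + 3) * (m + 2) * (m + 1))
            = ((m + 3) * (m + 2) * (m + 1) * m.choose t) * (m + 3) ^ 3 := by ring
          _ = (m + 3).choose (t + 3) * ((t + 3) * (t + 2) * (t + 1) * (m + 3) ^ 3) := by
              rw [h3']; ring
          _ ≤ (m + 3).choose (t + 3) * ((t + 3) ^ 3 * ((m + 3) * (m + 2) * (m + 1))) :=
              Nat.mul_le_mul_left _ hcmp
          _ = _ := by ring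
      have h1R : ((P.filter (fun T => ¬ Cvx T)).card : ℝ) ≤
          (((m + 3) / 3 : ℕ) : ℝ) * m.choose t := by exact_mod_cast h1
      have hq : (((m + 3) / 3 : ℕ) : ℝ) ≤ ((m + 3 : ℕ) : ℝ) / 3 := Nat.cast_div_le
      have hcR : (m.choose t : ℝ) * ((m + 3 : ℕ) : ℝ) ^ 3 ≤
          ((m + 3).choose (t + 3) : ℝ) * ((t + 3 : ℕ) : ℝ) ^ 3 := by exact_mod_cast hc
      refine h1R.trans ((mul_le_mul_of_nonneg_right hq (by positivity)).trans ?_)
      rw [div_mul_eq_mul_div, div_mul_eq_mul_div, div_le_div_iff₀ (by norm_num) (by positivity)]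
      generalize ((m + 3 : ℕ) : ℝ) = M at *
      generalize ((t + 3 : ℕ) : ℝ) = Tt at *
      nlinarith
  rw [hacc, le_div_iff₀ hNpos]
  linarith

end Pool.Agent.J4H45.SB
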