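import Pool.Agent.J4H45.SB.Geo
import Pool.Agent.J4H45.SB.Cnt

/-!
# The upper bound for the acceptance probability
-/

namespace Pool.Agent.J4H45.SB

open Finset

theorem choose_sq (m t : ℕ) (h : t ≤ m) : (m + 6).choose (t + 6) * m.choose t ≤
    (m + 3).choose (t + 3) * (m + 3).choose (t + 3) := by
  have h1 := choose_down3 (m + 3) (t + 3)
  have h2 := choose_down3 m t
  have e1 : m + 3 + 3 = m + 6 := by ring
  have e2 : t + 3 + 3 = t + 6 := by ring
  rw [e1, e2] at h1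
  set N := (m + 6).choose (t + 6)
  set N3 := (m + 3).choose (t + 3)
  set N6 := m.choose t
  have hcmp : (t + 3) * (t + 2) * (t + 1) * ((m + 6) * (m + 5) * (m + 4)) ≤
      (t + 6) * (t + 5) * (t + 4) * ((m + 3) * (m + 2) * (m + 1)) := by
    have g : ∀ i, (t + i) * (m + i + 3) ≤ (t + i + 3) * (m + i) := by
      intro i; nlinarith
    calc (t + 3) * (t + 2) * (t + 1) * ((m + 6) * (m + 5) * (m + 4))
        = ((t + 3) * (m + 3 + 3)) * ((t + 2) * (m + 2 + 3)) * ((t + 1) * (m + 1 + 3)) := by ring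
      _ ≤ ((t + 3 + 3) * (m + 3)) * ((t + 2 + 3) * (m + 2)) * ((t + 1 + 3) * (m + 1)) :=
          Nat.mul_le_mul (Nat.mul_le_mul (g 3) (g 2)) (g 1)
      _ = _ := by ring
  have hpos : 0 < (m + 6) * (m + 5) * (m + 4) * ((m + 3) * (m + 2) * (m + 1)) := by positivity
  refine Nat.le_of_mul_le_mul_right ?_ hpos
  calc N * N6 * ((m + 6) * (m + 5) * (m + 4) * ((m + 3) * (m + 2) * (m + 1)))
      = N * ((m + 3) * (m + 2) * (m + 1) * N6) * ((m + 6) * (m + 5) * (m + 4)) := by ring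
    _ = N * (N3 * ((t + 3) * (t + 2) * (t + 1))) * ((m + 6) * (m + 5) * (m + 4)) := by rw [h2]
    _ = N * N3 * ((t + 3) * (t + 2) * (t + 1) * ((m + 6) * (m + 5) * (m + 4))) := by ring
    _ ≤ N * N3 * ((t + 6) * (t + 5) * (t + 4) * ((m + 3) * (m + 2) * (m + 1))) :=
        Nat.mul_le_mul_left _ hcmp
    _ = (N * ((t + 6) * (t + 5) * (t + 4))) * N3 * ((m + 3) * (m + 2) * (m + 1)) := by ring
    _ = _ := by
        have e3 : N * ((t + 6) * (t + 5) * (t + 4)) = (m + 6) * (m + 5) * (m + 4) * N3 := by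
          rw [show (t + 6) = t + 3 + 3 by ring, show t + 5 = t + 3 + 2 by ring,
            show t + 4 = t + 3 + 1 by ring, ← h1]
        rw [e3]; ring

/-- the sets of a family of disjoint triples contained in a random set: second moment -/
theorem second_moment_bound {α : Type} [DecidableEq α] {S : Finset α} {F : Finset (Finset α)}
    {m t : ℕ} (hS : S.card = m + 6) (ht : t ≤ m) (hF : ∀ τ ∈ F, τ ⊆ S ∧ τ.card = 3)
    (hdis : ∀ τ ∈ F, ∀ τ' ∈ F, τ ≠ τ' → Disjoint τ τ') :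
    (((S.powersetCard (t + 6)).filter (fun T => ∀ τ ∈ F, ¬ τ ⊆ T)).card : ℝ) *
      (F.card * (m + 3).choose (t + 3)) ≤
      ((m + 6).choose (t + 6) : ℝ) * ((m + 6).choose (t + 6) : ℝ) := by
  classical
  set P := S.powersetCard (t + 6) with hP
  set N : ℝ := ((m + 6).choose (t + 6) : ℝ) with hN
  set N3 : ℝ := ((m + 3).choose (t + 3) : ℝ) with hN3
  set N6 : ℝ := (m.choose t : ℝ) with hN6
  have hNpos : 0 < N := by
    rw [hN]; exact_mod_cast Nat.choose_pos (by omega)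
  have hN3pos : 0 < N3 := by
    rw [hN3]; exact_mod_cast Nat.choose_pos (by omega)
  have hPc : (P.card : ℝ) = N := by rw [hP, card_powersetCard, hS]
  let X : Finset α → ℝ := fun T => ∑ τ ∈ F, if τ ⊆ T then (1 : ℝ) else 0
  have hX1 : ∑ T ∈ P, X T = F.card * N3 := by
    simp only [X]
    rw [sum_comm]
    have : ∀ τ ∈ F, ∑ T ∈ P, (if τ ⊆ T then (1 : ℝ) else 0) = N3 := by
      intro τ hτ
      obtain ⟨h1, h2⟩ := hF τ hτ
      rw [sum_boole, hP, card_super h1 (by omega), hS, h2]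
      rw [hN3]
      congr 2
    rw [sum_congr rfl this, sum_const, nsmul_eq_mul]
  have hX2 : ∑ T ∈ P, X T * X T ≤ F.card * N3 + F.card * F.card * N6 := by
    have e : ∀ T, X T * X T = ∑ τ ∈ F, ∑ τ' ∈ F, if τ ⊆ T ∧ τ' ⊆ T then (1 : ℝ) else 0 := by
      intro T
      simp only [X]
      rw [sum_mul_sum]
      refine sum_congr rfl fun τ _ => sum_congr rfl fun τ' _ => ?_
      by_cases h1 : τ ⊆ T <;> by_cases h2 : τ' ⊆ T <;> simp [h1, h2]
    simp only [e]
    rw [sum_comm]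
    have h1 : ∀ τ ∈ F, ∑ T ∈ P, ∑ τ' ∈ F, (if τ ⊆ T ∧ τ' ⊆ T then (1 : ℝ) else 0) ≤
        N3 + F.card * N6 := by
      intro τ hτ
      rw [sum_comm]
      have h2 : ∀ τ' ∈ F, ∑ T ∈ P, (if τ ⊆ T ∧ τ' ⊆ T then (1 : ℝ) else 0) ≤
          (if τ' = τ then N3 else 0) + N6 := by
        intro τ' hτ'
        obtain ⟨g1, g2⟩ := hF τ hτ
        obtain ⟨g3, g4⟩ := hF τ' hτ'
        have hN60 : 0 ≤ N6 := by rw [hN6]; positivity
        by_cases hne : τ' = τ
        · rw [if_pos hne, hne]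
          simp only [and_self]
          rw [sum_boole, hP, card_super g1 (by omega), hS, g2]
          have : (((m + 6 - 3).choose (t + 6 - 3) : ℕ) : ℝ) = N3 := by rw [hN3]; congr 2
          rw [this]
          linarith
        · rw [if_neg hne, zero_add]
          have hd : Disjoint τ τ' := hdis τ hτ τ' hτ' (Ne.symm hne)
          have e2 : ∀ T : Finset α, (τ ⊆ T ∧ τ' ⊆ T) = (τ ∪ τ' ⊆ T) := by
            intro T; rw [union_subset_iff]
          simp only [e2]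
          have hc : (τ ∪ τ').card = 6 := by rw [card_union_of_disjoint hd, g2, g4]
          rw [sum_boole, hP, card_super (union_subset g1 g3) (by omega), hS, hc]
          have : (((m + 6 - 6).choose (t + 6 - 6) : ℕ) : ℝ) = N6 := by rw [hN6]; congr 2
          rw [this]
      refine (sum_le_sum h2).trans ?_
      rw [sum_add_distrib, sum_ite_eq' F τ, if_pos hτ, sum_const, nsmul_eq_mul]
    refine (sum_le_sum h1).trans ?_
    rw [sum_const, nsmul_eq_mul]
    apply le_of_eq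
    ring
  have hNN : N * N6 ≤ N3 * N3 := by
    rw [hN, hN6, hN3]
    exact_mod_cast choose_sq m t ht
  set k : ℝ := (F.card : ℝ) with hk
  have hk0 : 0 ≤ k := by rw [hk]; positivity
  set μ : ℝ := k * N3 / N with hμ
  have hμN : μ * N = k * N3 := by rw [hμ]; field_simp
  have hμ0 : 0 ≤ μ := by rw [hμ]; positivity
  have hvar : ∑ T ∈ P, (X T - μ) ^ 2 ≤ μ * N := by
    have e : ∑ T ∈ P, (X T - μ) ^ 2 = ∑ T ∈ P, X T * X T - 2 * μ * ∑ T ∈ P, X T +
        μ ^ 2 * N := by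
      rw [← hPc, mul_sum, ← sum_sub_distrib]
      have : μ ^ 2 * (P.card : ℝ) = ∑ T ∈ P, μ ^ 2 := by
        rw [sum_const, nsmul_eq_mul]; ring
      rw [this, ← sum_add_distrib]
      exact sum_congr rfl fun T _ => by ring
    rw [e, hX1]
    have h1 : k * k * N6 ≤ μ ^ 2 * N := by
      have h2 : k * k * N6 * N ≤ μ ^ 2 * N * N := by
        calc k * k * N6 * N = k * k * (N * N6) := by ring
          _ ≤ k * k * (N3 * N3) := mul_le_mul_of_nonneg_left hNN (by positivity)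
          _ = (k * N3) * (k * N3) := by ring
          _ = μ ^ 2 * N * N := by rw [← hμN]; ring
      exact le_of_mul_le_mul_right h2 hNpos
    have h3 : 2 * μ * (k * N3) = 2 * (μ ^ 2 * N) := by rw [← hμN]; ring
    rw [h3, hμN]
    linarith
  have hzero : (((P.filter (fun T => ∀ τ ∈ F, ¬ τ ⊆ T)).card : ℝ)) * μ ^ 2 ≤ μ * N := by
    refine le_trans ?_ hvar
    rw [← nsmul_eq_mul, ← sum_const]
    refine (sum_le_sum (fun T hT => ?_)).trans
      (sum_le_sum_of_subset_of_nonneg (filter_subset _ _) fun _ _ _ => sq_nonneg _)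
    have hX0 : X T = 0 := by
      simp only [X]
      refine sum_eq_zero fun τ hτ => ?_
      rw [if_neg ((mem_filter.1 hT).2 τ hτ)]
    rw [hX0]
    apply le_of_eq
    ring
  rcases eq_or_lt_of_le hμ0 with h0 | h0
  · have : k * N3 = 0 := by rw [← hμN, ← h0]; ring
    rw [this, mul_zero]
    positivity
  · have h1 : (((P.filter (fun T => ∀ τ ∈ F, ¬ τ ⊆ T)).card : ℝ)) * μ ≤ N := by
      have : ((((P.filter (fun T => ∀ τ ∈ F, ¬ τ ⊆ T)).card : ℝ)) * μ) * μ ≤ N * μ := by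
        linarith
      exact le_of_mul_le_mul_right this h0
    rw [← hμN]
    nlinarith

theorem real_ratio (m t : ℕ) : ((t + 4 : ℕ) : ℝ) ^ 3 * (m + 6).choose (t + 6) ≤
    ((m + 6 : ℕ) : ℝ) ^ 3 * (m + 3).choose (t + 3) := by
  have h1 := choose_down3 (m + 3) (t + 3)
  have h2 : (t + 4) ^ 3 * (m + 6).choose (t + 6) ≤ (m + 6) ^ 3 * (m + 3).choose (t + 3) := by
    calc (t + 4) ^ 3 * (m + 6).choose (t + 6)
        ≤ ((t + 3 + 3) * (t + 3 + 2) * (t + 3 + 1)) * (m + 6).choose (t + 6) := by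
          refine Nat.mul_le_mul_right _ ?_
          calc (t + 4) ^ 3 = (t + 4) * (t + 4) * (t + 4) := by ring
            _ ≤ (t + 3 + 3) * (t + 3 + 2) * (t + 3 + 1) :=
              Nat.mul_le_mul (Nat.mul_le_mul (by omega) (by omega)) (by omega)
      _ = (m + 3 + 3) * (m + 3 + 2) * (m + 3 + 1) * (m + 3).choose (t + 3) := by
          rw [h1]; ring
      _ ≤ (m + 6) ^ 3 * (m + 3).choose (t + 3) := by
          refine Nat.mul_le_mul_right _ ?_
          calc (m + 3 + 3) * (m + 3 + 2) * (m + 3 + 1) ≤ (m + 6) * (m + 6) * (m + 6) :=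
              Nat.mul_le_mul (Nat.mul_le_mul (by omega) (by omega)) (by omega)
            _ = (m + 6) ^ 3 := by ring
  exact_mod_cast h2

/-- the upper bound -/
theorem acc_le {S : Finset Pt} (hS : GenPos S) {ε : ℝ} (hfar : Far ε S) {m t k : ℕ}
    (hm : S.card = m + 6) (hm1 : 1 ≤ m) (ht : t ≤ m) (hk1 : 1 ≤ k)
    (hk : 4 * (k : ℝ) < ε * S.card + 4) :
    acc S (t + 6) ≤ ((m + 6 : ℕ) : ℝ) ^ 3 / (k * ((t + 4 : ℕ) : ℝ) ^ 3) +
      k * (3 / 4) ^ (t + 3) := by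
  classical
  obtain ⟨F, hFc, hF, hdis, -⟩ := exists_trips hS hfar k hk
  set P := S.powersetCard (t + 6) with hP
  set N : ℝ := ((m + 6).choose (t + 6) : ℝ) with hN
  set N3 : ℝ := ((m + 3).choose (t + 3) : ℝ) with hN3
  have hNpos : 0 < N := by
    rw [hN]; exact_mod_cast Nat.choose_pos (by omega)
  have hN3pos : 0 < N3 := by
    rw [hN3]; exact_mod_cast Nat.choose_pos (by omega)
  have hPc : (P.card : ℝ) = N := by rw [hP, card_powersetCard, hm]
  have hN3N : N3 ≤ N := by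
    rw [hN, hN3]
    have : (m + 3).choose (t + 3) ≤ (m + 6).choose (t + 6) := by
      have e : m + 6 = m + 3 + 3 := by ring
      have e' : t + 6 = t + 3 + 3 := by ring
      rw [e, e']
      refine Nat.le_of_mul_le_mul_right (c := (t + 3 + 3) * (t + 3 + 2) * (t + 3 + 1)) ?_
        (by positivity)
      rw [← choose_down3]
      rw [mul_comm]
      refine Nat.mul_le_mul_right _ ?_
      exact Nat.mul_le_mul (Nat.mul_le_mul (by omega) (by omega)) (by omega)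
    exact_mod_cast this
  -- the good sets
  have hG : ∀ τ ∈ F, ∃ G ⊆ S, Disjoint G τ ∧ S.card ≤ 3 * G.card + 4 ∧
      ∀ T : Finset Pt, τ ⊆ T → ∀ x ∈ G, x ∈ T → ¬ Cvx T := fun τ hτ => (hF τ hτ).2.2
  choose! G hG1 hG2 hG3 hG4 using hG
  have hcover : P.filter Cvx ⊆ P.filter (fun T => ∀ τ ∈ F, ¬ τ ⊆ T) ∪
      F.biUnion (fun τ => P.filter (fun T => τ ⊆ T ∧ Disjoint (G τ) T)) := by
    intro T hT
    rw [mem_filter] at hT
    rw [mem_union, mem_biUnion]
    by_cases h : ∀ τ ∈ F, ¬ τ ⊆ T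
    · exact Or.inl (mem_filter.2 ⟨hT.1, h⟩)
    · push Not at h
      obtain ⟨τ, hτ, hτT⟩ := h
      refine Or.inr ⟨τ, hτ, mem_filter.2 ⟨hT.1, hτT, ?_⟩⟩
      rw [disjoint_left]
      intro x hx hxT
      exact hG4 τ hτ T hτT x hx hxT hT.2
  have h1 : ((P.filter Cvx).card : ℝ) ≤
      ((P.filter (fun T => ∀ τ ∈ F, ¬ τ ⊆ T)).card : ℝ) +
      ∑ τ ∈ F, ((P.filter (fun T => τ ⊆ T ∧ Disjoint (G τ) T)).card : ℝ) := by
    have h2 := (card_le_card hcover).trans (card_union_le _ _)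
    have h3 := card_biUnion_le (s := F)
      (t := fun τ => P.filter (fun T => τ ⊆ T ∧ Disjoint (G τ) T))
    have h4 := h2.trans (Nat.add_le_add_left h3 _)
    exact_mod_cast h4
  have h2 : ∀ τ ∈ F, ((P.filter (fun T => τ ⊆ T ∧ Disjoint (G τ) T)).card : ℝ) ≤
      (3 / 4) ^ (t + 3) * N := by
    intro τ hτ
    have g1 := card_between (hF τ hτ).1 (hG1 τ hτ) (hG2 τ hτ) (s := t + 6)
      (by rw [(hF τ hτ).2.1]; omega)
    rw [hP, g1, (hF τ hτ).2.1, hm]
    have e1 : m + 6 - 3 = m + 3 := by omega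
    have e2 : t + 6 - 3 = t + 3 := by omega
    rw [e1, e2]
    have g2 := choose_avoid (m + 3 - (G τ).card) (m + 3) (t + 3) (by omega)
    have g3 := hG3 τ hτ
    rw [hm] at g3
    have g4 : 4 * (m + 3 - (G τ).card) ≤ 3 * (m + 3) := by omega
    set M := m + 3 - (G τ).card with hM
    have g5 : (M.choose (t + 3) : ℝ) * ((m + 3 : ℕ) : ℝ) ^ (t + 3) ≤
        N3 * (M : ℝ) ^ (t + 3) := by rw [hN3]; exact_mod_cast g2
    have g6 : (M : ℝ) ≤ 3 / 4 * ((m + 3 : ℕ) : ℝ) := by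
      have : (4 : ℝ) * M ≤ 3 * ((m + 3 : ℕ) : ℝ) := by exact_mod_cast g4
      linarith
    have g7 : (M : ℝ) ^ (t + 3) ≤ (3 / 4) ^ (t + 3) * ((m + 3 : ℕ) : ℝ) ^ (t + 3) := by
      rw [← mul_pow]
      exact pow_le_pow_left₀ (by positivity) g6 _
    have hpos : (0 : ℝ) < ((m + 3 : ℕ) : ℝ) ^ (t + 3) := by positivity
    refine le_of_mul_le_mul_right (a := ((m + 3 : ℕ) : ℝ) ^ (t + 3)) ?_ hpos
    calc (M.choose (t + 3) : ℝ) * ((m + 3 : ℕ) : ℝ) ^ (t + 3)
        ≤ N3 * (M : ℝ) ^ (t + 3) := g5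
      _ ≤ N3 * ((3 / 4) ^ (t + 3) * ((m + 3 : ℕ) : ℝ) ^ (t + 3)) :=
          mul_le_mul_of_nonneg_left g7 hN3pos.le
      _ ≤ N * ((3 / 4) ^ (t + 3) * ((m + 3 : ℕ) : ℝ) ^ (t + 3)) :=
          mul_le_mul_of_nonneg_right hN3N (by positivity)
      _ = _ := by ring
  have h3 := second_moment_bound hm ht (fun τ hτ => ⟨(hF τ hτ).1, (hF τ hτ).2.1⟩) hdis
  rw [hFc] at h3
  have hkpos : (0 : ℝ) < k := by exact_mod_cast hk1
  have h4 := real_ratio m t
  have ht4 : (0 : ℝ) < ((t + 4 : ℕ) : ℝ) ^ 3 := by positivity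
  have h5 : ((P.filter (fun T => ∀ τ ∈ F, ¬ τ ⊆ T)).card : ℝ) ≤
      ((m + 6 : ℕ) : ℝ) ^ 3 / (k * ((t + 4 : ℕ) : ℝ) ^ 3) * N := by
    rw [div_mul_eq_mul_div, le_div_iff₀ (by positivity)]
    set Z : ℝ := ((P.filter (fun T => ∀ τ ∈ F, ¬ τ ⊆ T)).card : ℝ)
    have hZ0 : 0 ≤ Z := by positivity
    refine le_of_mul_le_mul_right (a := N) ?_ hNpos
    calc Z * (k * ((t + 4 : ℕ) : ℝ) ^ 3) * N = Z * k * (((t + 4 : ℕ) : ℝ) ^ 3 * N) := by ring
      _ ≤ Z * k * (((m + 6 : ℕ) : ℝ) ^ 3 * N3) :=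
          mul_le_mul_of_nonneg_left h4 (by positivity)
      _ = (Z * (k * N3)) * ((m + 6 : ℕ) : ℝ) ^ 3 := by ring
      _ ≤ (N * N) * ((m + 6 : ℕ) : ℝ) ^ 3 := mul_le_mul_of_nonneg_right h3 (by positivity)
      _ = _ := by ring
  have h6 : ∑ τ ∈ F, ((P.filter (fun T => τ ⊆ T ∧ Disjoint (G τ) T)).card : ℝ) ≤
      k * (3 / 4) ^ (t + 3) * N := by
    refine (sum_le_sum h2).trans ?_
    rw [sum_const, nsmul_eq_mul, hFc]
    apply le_of_eq
    ring
  have hacc : acc S (t + 6) = ((P.filter Cvx).card : ℝ) / N := by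
    unfold acc
    rw [← hPc]
  rw [hacc, div_le_iff₀ hNpos]
  linarith

end Pool.Agent.J4H45.SB
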